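import Pool.Agent.Helper50.Sparse.Count

/-!
# Counting independent sequences over an element which avoid a second element
-/

set_option autoImplicit false
set_option linter.unusedSectionVars false

namespace Pool.Agent.Helper38.CT2

open Pool.Agent.Helper28.BPack Pool.Agent.Helper50.Sparse Finset

variable {L : Type} [Lattice L] [BoundedOrder L] [Finite L] [IsUpperModularLattice L]
variable {ι : Type} [Fintype ι]

open Classical in
/-- the number of independent sequences over `F` which avoid `w`, if there are always at least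
`D` choices over the elements of rank at most `B` -/
theorem card_good_avoid (c : ι → L) (hc : ∀ j, IsAtom (c j)) (D B : ℕ) (w : L)
    (hD : ∀ x : L, rk x ≤ B → D ≤ (univ.filter (fun j : ι => ¬ c j ≤ x ∧ ¬ c j ≤ w)).card) :
    ∀ (m : ℕ) (F : L), rk F + m ≤ B + 1 →
      D ^ m ≤ ((good c m F).filter (fun a => ∀ j, ¬ c (a j) ≤ w)).card := by
  intro m
  induction m with
  | zero =>
    intro F _
    have h1 : (Fin.elim0 : Fin 0 → ι) ∈ (good c 0 F).filter (fun a => ∀ j, ¬ c (a j) ≤ w) := by
      rw [Finset.mem_filter, mem_good]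
      refine ⟨?_, fun j => j.elim0⟩
      unfold jn
      simp
    have h2 : 0 < ((good c 0 F).filter (fun a => ∀ j, ¬ c (a j) ≤ w)).card :=
      Finset.card_pos.mpr ⟨_, h1⟩
    simpa using h2
  | succ m ih =>
    intro F hF
    set A : Finset ι := univ.filter (fun j : ι => ¬ c j ≤ F ∧ ¬ c j ≤ w) with hA
    let T : Finset (Σ _ : ι, (Fin m → ι)) :=
      A.sigma (fun a0 => (good c m (F ⊔ c a0)).filter (fun a => ∀ j, ¬ c (a j) ≤ w))
    have h1 : T.card ≤ ((good c (m + 1) F).filter (fun a => ∀ j, ¬ c (a j) ≤ w)).card := by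
      apply Finset.card_le_card_of_injOn (fun x => (Fin.cons x.1 x.2 : Fin (m + 1) → ι))
      · rintro ⟨a0, a⟩ hx
        have hx' : a0 ∈ A ∧ a ∈ (good c m (F ⊔ c a0)).filter (fun a => ∀ j, ¬ c (a j) ≤ w) :=
          Finset.mem_sigma.mp hx
        obtain ⟨h2, h3⟩ := hx'
        rw [hA, Finset.mem_filter] at h2
        rw [Finset.mem_filter, mem_good] at h3
        change (Fin.cons a0 a : Fin (m + 1) → ι) ∈
          (((good c (m + 1) F).filter (fun a => ∀ j, ¬ c (a j) ≤ w) : Finset _) : Set _)
        rw [Finset.mem_coe, Finset.mem_filter, mem_good, jn_cons, h3.1,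
          rk_sup_atom (hc a0) h2.2.1]
        refine ⟨by ring, ?_⟩
        intro j
        refine Fin.cases ?_ (fun i => ?_) j
        · simpa using h2.2.2
        · simpa using h3.2 i
      · rintro ⟨a0, a⟩ _ ⟨b0, b⟩ _ h
        have h2 : (Fin.cons a0 a : Fin (m + 1) → ι) = Fin.cons b0 b := h
        have h3 := Fin.cons_injective2 h2
        rw [h3.1, h3.2]
    have h2 : T.card = ∑ a0 ∈ A,
        ((good c m (F ⊔ c a0)).filter (fun a => ∀ j, ¬ c (a j) ≤ w)).card := Finset.card_sigma _ _
    have h3 : ∑ a0 ∈ A, D ^ m ≤ ∑ a0 ∈ A,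
        ((good c m (F ⊔ c a0)).filter (fun a => ∀ j, ¬ c (a j) ≤ w)).card := by
      apply Finset.sum_le_sum
      intro a0 ha0
      rw [hA, Finset.mem_filter] at ha0
      apply ih
      rw [rk_sup_atom (hc a0) ha0.2.1]
      omega
    rw [Finset.sum_const, smul_eq_mul] at h3
    have h4 : D ≤ A.card := hD F (by omega)
    calc D ^ (m + 1) = D * D ^ m := by ring
      _ ≤ A.card * D ^ m := Nat.mul_le_mul_right _ h4
      _ ≤ _ := h3
      _ = T.card := h2.symm
      _ ≤ _ := h1

end Pool.Agent.Helper38.CT2
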