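import Pool.Agent.Helper50.Sparse.Kernel

/-!
# Boolean packings from a frame and a family of boxes which avoid it
-/

set_option autoImplicit false
set_option linter.unusedSectionVars false

namespace Pool.Agent.Helper38.CT2

open Pool.Agent.Helper28.BPack Pool.Agent.Helper50.Sparse

variable {L : Type} [Lattice L] [BoundedOrder L] [Finite L] [IsUpperModularLattice L]

/-- A box `p f` from `f` to the top (the frame), and for every other element `F` of small rank
above `f` which is not in the frame a box with bottom `F` and top of complementary rank which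
avoids the frame, the elements of these boxes other than the bottoms being all different. -/
theorem hasPack_of_family_frame (f : L) (p : L → Pc L)
    (hg : ∀ F, f ≤ F → 2 * rk F < rk (⊤ : L) + rk f →
      (∀ B, B.Nonempty → (p f).val B ≠ F) → (p F).Good)
    (hx : ∀ F, f ≤ F → 2 * rk F < rk (⊤ : L) + rk f →
      (∀ B, B.Nonempty → (p f).val B ≠ F) → (p F).x = F)
    (hn : ∀ F, f ≤ F → 2 * rk F < rk (⊤ : L) + rk f →
      (∀ B, B.Nonempty → (p f).val B ≠ F) → (p F).n = rk (⊤ : L) + rk f - 2 * rk F)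
    (ha : ∀ F, f ≤ F → 2 * rk F < rk (⊤ : L) + rk f → F ≠ f →
      (∀ B, B.Nonempty → (p f).val B ≠ F) →
      ∀ B, B.Nonempty → ∀ B', (p F).val B ≠ (p f).val B')
    (hd : ∀ F F', f ≤ F → f ≤ F' → 2 * rk F < rk (⊤ : L) + rk f →
      2 * rk F' < rk (⊤ : L) + rk f → F ≠ f → F' ≠ f →
      (∀ B, B.Nonempty → (p f).val B ≠ F) → (∀ B, B.Nonempty → (p f).val B ≠ F') → F ≠ F' →
      ∀ B B', B.Nonempty → B'.Nonempty → (p F).val B ≠ (p F').val B')
    (hf : 2 * rk f < rk (⊤ : L) + rk f)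
    (hfF : (p f).x = f) (hfG : (p f).Good) :
    HasPack f := by
  classical
  have hof : ∀ B, B.Nonempty → (p f).val B ≠ f := by
    intro B hB h
    have h2 := hfG.rk_val B
    rw [h, hfF] at h2
    have h3 : 0 < B.card := hB.card_pos
    omega
  obtain ⟨K, hK⟩ := exists_kernel
    (fun x y : L => (f ≤ x ∧ 2 * rk x < rk (⊤ : L) + rk f ∧
      ∀ B, B.Nonempty → (p f).val B ≠ x) ∧ ∃ B, B.Nonempty ∧ (p x).val B = y) (by
      rintro x y ⟨⟨hfx, hs, hw⟩, B, hB, rfl⟩
      have h1 : x ≤ (p x).val B := by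
        conv_lhs => rw [← hx x hfx hs hw]
        exact (p x).le_val B
      have h2 := (hg x hfx hs hw).rk_val B
      rw [hx x hfx hs hw] at h2
      have h3 : 0 < B.card := hB.card_pos
      refine lt_of_le_of_ne h1 ?_
      intro h
      rw [← h] at h2
      omega)
  have hKf : K f := by
    rw [hK]
    rintro ⟨x, hxK, ⟨hfx, hs, hw⟩, B, hB, h⟩
    have h2 := (hg x hfx hs hw).rk_val B
    rw [h, hx x hfx hs hw] at h2
    have h3 : 0 < B.card := hB.card_pos
    have h4 := rk_mono hfx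
    omega
  have hKw : ∀ F, K F → ∀ B, B.Nonempty → (p f).val B ≠ F := by
    intro F hKF B hB h
    exact (hK F).mp hKF ⟨f, hKf, ⟨le_rfl, hf, hof⟩, B, hB, h⟩
  let κ := {F : L // (f ≤ F ∧ 2 * rk F < rk (⊤ : L) + rk f) ∧ K F}
  have hW : ∀ i : κ, ∀ B, B.Nonempty → (p f).val B ≠ i.1 := fun i => hKw i.1 i.2.2
  refine HasPack.assemble (f := f) (ι := κ) (fun i => p i.1)
    (fun i => hg i.1 i.2.1.1 i.2.1.2 (hW i)) (fun i => ?_) ?_ ?_ ?_
  · rw [hx i.1 i.2.1.1 i.2.1.2 (hW i)]
    exact i.2.1.1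
  · intro i
    have h1 := (hg i.1 i.2.1.1 i.2.1.2 (hW i)).rk_val Finset.univ
    rw [hx i.1 i.2.1.1 i.2.1.2 (hW i), Finset.card_univ, Fintype.card_fin] at h1
    change rk (⊤ : L) + rk f ≤ rk (p i.1).x + rk ((p i.1).val Finset.univ)
    rw [h1, hx i.1 i.2.1.1 i.2.1.2 (hW i)]
    have h2 := i.2.1
    have h3 := hn i.1 i.2.1.1 i.2.1.2 (hW i)
    omega
  · rintro ⟨F, ⟨hfF', hF⟩, hKF⟩ B ⟨F', ⟨hfF'', hF'⟩, hKF'⟩ B' h
    change (p F).val B = (p F').val B' at h
    have hwF := hKw F hKF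
    have hwF' := hKw F' hKF'
    by_cases hFF : F = F'
    · subst hFF
      exact ⟨rfl, heq_of_eq ((hg F hfF' hF hwF).inj h)⟩
    · exfalso
      rcases B.eq_empty_or_nonempty with hB | hB
      · rcases B'.eq_empty_or_nonempty with hB' | hB'
        · rw [hB, hB', Pc.val_empty, Pc.val_empty, hx F hfF' hF hwF, hx F' hfF'' hF' hwF'] at h
          exact hFF h
        · rw [hB, Pc.val_empty, hx F hfF' hF hwF] at h
          exact (hK F).mp hKF ⟨F', hKF', ⟨hfF'', hF', hwF'⟩, B', hB', h.symm⟩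
      · rcases B'.eq_empty_or_nonempty with hB' | hB'
        · rw [hB', Pc.val_empty, hx F' hfF'' hF' hwF'] at h
          exact (hK F').mp hKF' ⟨F, hKF, ⟨hfF', hF, hwF⟩, B, hB, h⟩
        · by_cases h1 : F = f
          · subst h1
            exact ha F' hfF'' hF' (fun h => hFF h.symm) hwF' B' hB' B h.symm
          · by_cases h2 : F' = f
            · subst h2
              exact ha F hfF' hF h1 hwF B hB B' h
            · exact hd F F' hfF' hfF'' hF hF' h1 h2 hwF hwF' hFF B B' hB hB' h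
  · intro z hfz hz
    by_cases h : K z
    · refine ⟨⟨z, ⟨hfz, hz⟩, h⟩, ∅, ?_⟩
      change (p z).val ∅ = z
      rw [Pc.val_empty, hx z hfz hz (hKw z h)]
    · have h1 : ∃ x, K x ∧ ((f ≤ x ∧ 2 * rk x < rk (⊤ : L) + rk f ∧
          ∀ B, B.Nonempty → (p f).val B ≠ x) ∧ ∃ B, B.Nonempty ∧ (p x).val B = z) := by
        by_contra hc
        exact h ((hK z).mpr hc)
      obtain ⟨x, hxK, ⟨hxf, hxs, _⟩, B, _, hB⟩ := h1
      exact ⟨⟨x, ⟨hxf, hxs⟩, hxK⟩, B, hB⟩

end Pool.Agent.Helper38.CT2
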