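import Pool.Agent.Helper38.CT2.Frame
import Pool.Agent.Helper63.HM.Hall

/-!
# Boolean packings from a frame and weighted boxes with small loads
-/

set_option autoImplicit false
set_option linter.unusedSectionVars false

namespace Pool.Agent.Helper38.CT2

open Pool.Agent.Helper28.BPack Pool.Agent.Helper50.Sparse

variable {L : Type} [Lattice L] [BoundedOrder L] [Finite L] [IsUpperModularLattice L]

/-- Weighted boxes `pc v`, resources `Use v`: two boxes with different bottoms and a common element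
above the bottoms have a common resource; all boxes avoid the frame `q0`; the resources of every
box carry load at most one; every low element off the frame has total weight at least one. -/
theorem hasPack_of_load {V : Type} [Finite V] (q0 : Pc L) (hq0 : q0.Good) (hq0x : q0.x = ⊥)
    (hq0n : q0.n = rk (⊤ : L)) (hr : 0 < rk (⊤ : L))
    (pc : V → Pc L) (hpc : ∀ v, (pc v).Good)
    (hbot : ∀ v, (pc v).x ≠ ⊥ ∧ 2 * rk (pc v).x < rk (⊤ : L) ∧
      ∀ B, B.Nonempty → q0.val B ≠ (pc v).x)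
    (hn : ∀ v, (pc v).n = rk (⊤ : L) - 2 * rk (pc v).x)
    (ha : ∀ v B, B.Nonempty → ∀ B', (pc v).val B ≠ q0.val B')
    (Use : V → L → Prop) (w : V → ℝ) (hw0 : ∀ v, 0 ≤ w v)
    (hU : ∀ v v', (pc v).x ≠ (pc v').x → ∀ B B', B.Nonempty → B'.Nonempty →
      (pc v).val B = (pc v').val B' → ∃ q, Use v q ∧ Use v' q)
    (hload : ∀ v, ∑ᶠ q ∈ {q | Use v q}, ∑ᶠ u ∈ {u | Use u q}, w u ≤ 1)
    (htot : ∀ F, F ≠ ⊥ → 2 * rk F < rk (⊤ : L) → (∀ B, B.Nonempty → q0.val B ≠ F) →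
      1 ≤ ∑ᶠ v ∈ {v | (pc v).x = F}, w v) :
    HasPack (⊥ : L) := by
  classical
  let X := {F : L // F ≠ ⊥ ∧ 2 * rk F < rk (⊤ : L) ∧ ∀ B, B.Nonempty → q0.val B ≠ F}
  obtain ⟨g, hg1, -, hg3⟩ := Pool.Agent.Helper63.HM.rainbow (V := V) (Q := L) (X := X)
    Use (fun v => ⟨(pc v).x, hbot v⟩) w hw0 (fun v _ => hload v) (by
      intro x
      have h1 : {v : V | (⟨(pc v).x, hbot v⟩ : X) = x} = {v | (pc v).x = x.1} := by
        ext v
        simp only [Set.mem_ofPred_eq, Subtype.ext_iff]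
      change 1 ≤ ∑ᶠ v ∈ {v : V | (⟨(pc v).x, hbot v⟩ : X) = x}, w v
      rw [h1]
      exact htot x.1 x.2.1 x.2.2.1 x.2.2.2)
  have hgx : ∀ x : X, (pc (g x)).x = x.1 := fun x => congrArg Subtype.val (hg1 x)
  have hrb : rk (⊥ : L) = 0 := rk_bot
  let p : L → Pc L := fun F => if hF : F ≠ ⊥ ∧ 2 * rk F < rk (⊤ : L) ∧
    ∀ B, B.Nonempty → q0.val B ≠ F then pc (g ⟨F, hF⟩) else q0
  have hp0 : p ⊥ = q0 := dif_neg (fun h => h.1 rfl)
  have hpX : ∀ F (hF : F ≠ ⊥ ∧ 2 * rk F < rk (⊤ : L) ∧ ∀ B, B.Nonempty → q0.val B ≠ F),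
      p F = pc (g ⟨F, hF⟩) := fun F hF => dif_pos hF
  apply hasPack_of_family_frame ⊥ p
  · intro F _ hF hw
    by_cases h : F = ⊥
    · rw [h, hp0]
      exact hq0
    · rw [hp0] at hw
      rw [hpX F ⟨h, by omega, hw⟩]
      exact hpc _
  · intro F _ hF hw
    by_cases h : F = ⊥
    · rw [h, hp0]
      exact hq0x
    · rw [hp0] at hw
      rw [hpX F ⟨h, by omega, hw⟩]
      exact hgx _
  · intro F _ hF hw
    by_cases h : F = ⊥
    · rw [h, hp0, hq0n, hrb]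
      omega
    · rw [hp0] at hw
      rw [hpX F ⟨h, by omega, hw⟩, hn, hgx, hrb]
      rfl
  · intro F _ hF h hw B hB B'
    revert B'
    rw [hp0] at hw ⊢
    intro B'
    revert B
    rw [hpX F ⟨h, by omega, hw⟩]
    intro B hB
    exact ha _ B hB B'
  · intro F F' _ _ hF hF' h h' hw hw' hne
    rw [hp0] at hw hw'
    rw [hpX F ⟨h, by omega, hw⟩, hpX F' ⟨h', by omega, hw'⟩]
    intro B B' hB hB' he
    have h1 : (⟨F, ⟨h, by omega, hw⟩⟩ : X) ≠ ⟨F', ⟨h', by omega, hw'⟩⟩ := fun h2 =>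
      hne (congrArg Subtype.val h2)
    obtain ⟨q, hq⟩ := hU _ _ (by rw [hgx, hgx]; exact hne) B B' hB hB' he
    exact hg3 _ _ h1 q hq
  · rw [hrb]
    omega
  · rw [hp0]
    exact hq0x
  · rw [hp0]
    exact hq0

end Pool.Agent.Helper38.CT2
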